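import Mathlib

/-!
# A graph and a rotor mechanism for which every rotor configuration is transient

The vertex set is `ℕ`; the level of `v` is `⌊log₂ (v+1)⌋`, so that level `n` has `2^n` vertices,
and consecutive levels are joined completely.  At a vertex of level `n ≥ 1` the cyclic order of
the neighbours is: one lower neighbour, four upper neighbours, one lower neighbour, four upper
neighbours, and so on.
-/

namespace Pool.Agent.Results.MP_c5a801_co.AllTransient

/-- A rotor mechanism on `G`: at every vertex `v` a permutation `next v` of the neighbours of `v`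
such that iterating `next v` leads from any neighbour to any other one, i.e. a cyclic ordering of
the neighbours (`next v a` is the successor of `a`). -/
structure RotorMechanism {V : Type} (G : SimpleGraph V) where
  next : ∀ v : V, Equiv.Perm (G.neighborSet v)
  cyclic : ∀ (v : V) (a b : G.neighborSet v), ∃ k : ℕ, (next v)^[k] a = b

/-- A rotor configuration assigns to every vertex one of its neighbours. -/
abbrev RotorConfig {V : Type} (G : SimpleGraph V) : Type := ∀ v : V, G.neighborSet v

open Classical in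
/-- One step of the rotor walk: the rotor at the current vertex is advanced, and the particle
moves to the neighbour it now points to. -/
noncomputable def step {V : Type} {G : SimpleGraph V} (M : RotorMechanism G)
    (s : V × RotorConfig G) : V × RotorConfig G :=
  (((M.next s.1 (s.2 s.1) : G.neighborSet s.1) : V),
    Function.update s.2 s.1 (M.next s.1 (s.2 s.1)))

/-- Position of the particle at time `t`. -/
noncomputable def position {V : Type} {G : SimpleGraph V} (M : RotorMechanism G)
    (x0 : V) (r0 : RotorConfig G) (t : ℕ) : V :=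
  ((step M)^[t] (x0, r0)).1

/-- The walk from `x0`, `r0` is transient: every vertex is visited only finitely often. -/
def IsTransient {V : Type} {G : SimpleGraph V} (M : RotorMechanism G)
    (x0 : V) (r0 : RotorConfig G) : Prop :=
  ∀ v : V, {t : ℕ | position M x0 r0 t = v}.Finite

/-! ### The graph -/

/-- level of a vertex -/
def lev (v : ℕ) : ℕ := Nat.log 2 (v + 1)

/-- degree of a vertex -/
def dg (v : ℕ) : ℕ := if lev v = 0 then 2 else 5 * 2 ^ (lev v - 1)

/-- the `p`-th neighbour -/
def nb (v p : ℕ) : ℕ :=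
  if lev v = 0 then 1 + p
  else if p % 5 = 0 then 2 ^ (lev v - 1) - 1 + p / 5
  else 2 ^ (lev v + 1) - 1 + (4 * (p / 5) + (p % 5 - 1))

/-- the index of a neighbour -/
def ps (v w : ℕ) : ℕ :=
  if lev v = 0 then w - 1
  else if lev w + 1 = lev v then 5 * (w + 1 - 2 ^ (lev v - 1))
  else 5 * ((w + 1 - 2 ^ (lev v + 1)) / 4) + ((w + 1 - 2 ^ (lev v + 1)) % 4 + 1)

theorem lev_eq_iff (v n : ℕ) : lev v = n ↔ 2 ^ n ≤ v + 1 ∧ v + 1 < 2 ^ (n + 1) := by
  unfold lev
  rw [Nat.log_eq_iff]
  · right
    exact ⟨by norm_num, by omega⟩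

theorem lev_spec (v : ℕ) : 2 ^ lev v ≤ v + 1 ∧ v + 1 < 2 ^ (lev v + 1) := (lev_eq_iff v _).1 rfl

theorem lev_zero_iff (v : ℕ) : lev v = 0 ↔ v = 0 := by
  rw [lev_eq_iff]; norm_num

/-- the graph -/
def gr : SimpleGraph ℕ where
  Adj u v := lev u + 1 = lev v ∨ lev v + 1 = lev u
  symm := ⟨fun _ _ h => Or.elim h Or.inr Or.inl⟩
  loopless := ⟨fun u h => by rcases h with h | h <;> omega⟩

theorem adj_iff (u v : ℕ) : gr.Adj u v ↔ (lev u + 1 = lev v ∨ lev v + 1 = lev u) := Iff.rfl

theorem dg_pos (v : ℕ) : 0 < dg v := by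
  unfold dg; split_ifs <;> positivity

theorem nb_lev_zero {p : ℕ} (hp : p < dg 0) : lev (nb 0 p) = 1 := by
  have h0 : lev 0 = 0 := by decide
  simp only [dg, nb, h0, if_true] at *
  rw [lev_eq_iff]
  omega

theorem nb_lev_down {v p : ℕ} (hv : lev v ≠ 0) (hp : p < dg v) (h5 : p % 5 = 0) :
    lev (nb v p) + 1 = lev v := by
  obtain ⟨n, hn⟩ := Nat.exists_eq_succ_of_ne_zero hv
  simp only [dg, nb, hn, Nat.succ_ne_zero, if_false, h5, if_true, Nat.succ_eq_add_one,
    Nat.add_sub_cancel] at *
  have h1 : 1 ≤ 2 ^ n := Nat.one_le_two_pow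
  have : lev (2 ^ n - 1 + p / 5) = n := by
    rw [lev_eq_iff, pow_succ]
    omega
  rw [this]

theorem nb_lev_up {v p : ℕ} (hv : lev v ≠ 0) (hp : p < dg v) (h5 : p % 5 ≠ 0) :
    lev (nb v p) = lev v + 1 := by
  obtain ⟨n, hn⟩ := Nat.exists_eq_succ_of_ne_zero hv
  simp only [dg, nb, hn, Nat.succ_ne_zero, if_false, h5, Nat.succ_eq_add_one,
    Nat.add_sub_cancel] at *
  have h1 : 1 ≤ 2 ^ n := Nat.one_le_two_pow
  rw [lev_eq_iff]
  have e1 : 2 ^ (n + 1 + 1) = 4 * 2 ^ n := by ring
  have e2 : 2 ^ (n + 1 + 1 + 1) = 8 * 2 ^ n := by ring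
  rw [e2, e1]
  omega

theorem nb_adj {v p : ℕ} (hp : p < dg v) : gr.Adj v (nb v p) := by
  rw [adj_iff]
  by_cases hv : lev v = 0
  · have := (lev_zero_iff v).1 hv
    subst this
    left
    rw [nb_lev_zero hp, hv]
  · by_cases h5 : p % 5 = 0
    · right; exact nb_lev_down hv hp h5
    · left; exact (nb_lev_up hv hp h5).symm

theorem ps_nb {v p : ℕ} (hp : p < dg v) : ps v (nb v p) = p := by
  by_cases hv : lev v = 0
  · simp only [ps, nb, hv, if_true]; omega
  · by_cases h5 : p % 5 = 0
    · have h1 := nb_lev_down hv hp h5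
      unfold ps
      rw [if_neg hv, if_pos h1]
      unfold nb
      rw [if_neg hv, if_pos h5]
      have : 1 ≤ 2 ^ (lev v - 1) := Nat.one_le_two_pow
      omega
    · have h1 := nb_lev_up hv hp h5
      unfold ps
      rw [if_neg hv, if_neg (by omega)]
      unfold nb
      rw [if_neg hv, if_neg h5]
      have : 1 ≤ 2 ^ (lev v + 1) := Nat.one_le_two_pow
      omega

theorem ps_lt {v w : ℕ} (h : gr.Adj v w) : ps v w < dg v := by
  rw [adj_iff] at h
  by_cases hv : lev v = 0
  · simp only [ps, dg, hv, if_true]
    have : lev w = 1 := by omega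
    rw [lev_eq_iff] at this
    omega
  · obtain ⟨n, hn⟩ := Nat.exists_eq_succ_of_ne_zero hv
    have h1 : 1 ≤ 2 ^ n := Nat.one_le_two_pow
    by_cases hw : lev w + 1 = lev v
    · have hw' : lev w = n := by omega
      simp only [ps, dg, hw, hn, Nat.succ_ne_zero, if_false, if_true, Nat.succ_eq_add_one,
        Nat.add_sub_cancel]
      rw [hn] at hw
      simp only [Nat.succ_eq_add_one] at hw
      rw [lev_eq_iff, pow_succ] at hw'
      omega
    · have hw' : lev w = n + 2 := by omega
      simp only [ps, dg, hn, Nat.succ_ne_zero, if_false, Nat.succ_eq_add_one,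
        Nat.add_sub_cancel]
      rw [if_neg (by omega)]
      rw [lev_eq_iff] at hw'
      have e1 : 2 ^ (n + 1 + 1) = 4 * 2 ^ n := by ring
      have e1' : 2 ^ (n + 2) = 4 * 2 ^ n := by ring
      have e2 : 2 ^ (n + 2 + 1) = 8 * 2 ^ n := by ring
      rw [e2, e1'] at hw'
      rw [e1]
      omega

theorem nb_ps {v w : ℕ} (h : gr.Adj v w) : nb v (ps v w) = w := by
  rw [adj_iff] at h
  by_cases hv : lev v = 0
  · simp only [ps, nb, hv, if_true]
    have : lev w = 1 := by omega
    rw [lev_eq_iff] at this
    omega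
  · obtain ⟨n, hn⟩ := Nat.exists_eq_succ_of_ne_zero hv
    have h1 : 1 ≤ 2 ^ n := Nat.one_le_two_pow
    by_cases hw : lev w + 1 = lev v
    · have hw' : lev w = n := by omega
      unfold ps
      rw [if_neg hv, if_pos hw]
      unfold nb
      rw [if_neg hv, if_pos (by omega)]
      rw [lev_eq_iff, pow_succ] at hw'
      rw [hn]
      simp only [Nat.succ_eq_add_one, Nat.add_sub_cancel]
      omega
    · have hw' : lev w = n + 2 := by omega
      unfold ps
      rw [if_neg hv, if_neg hw]
      unfold nb
      rw [if_neg hv, if_neg (by omega)]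
      rw [lev_eq_iff] at hw'
      rw [hn]
      simp only [Nat.succ_eq_add_one]
      have e1 : 2 ^ (n + 1 + 1) = 4 * 2 ^ n := by ring
      have e1' : 2 ^ (n + 2) = 4 * 2 ^ n := by ring
      have e2 : 2 ^ (n + 2 + 1) = 8 * 2 ^ n := by ring
      rw [e2, e1'] at hw'
      rw [e1]
      omega

theorem nb_inj {v p q : ℕ} (hp : p < dg v) (hq : q < dg v) (h : nb v p = nb v q) : p = q := by
  rw [← ps_nb hp, ← ps_nb hq, h]

/-! ### The combinatorial core -/

/-- the sequence of positions obeys the rotor rule, in terms of the number of earlier exits -/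
def Rule (x : ℕ → ℕ) (a : ℕ → ℕ) : Prop :=
  ∀ s, x (s + 1) = nb (x s) ((a (x s) + Nat.count (fun u => x u = x s) s + 1) % dg (x s))

theorem Rule.eq {x a : ℕ → ℕ} (h : Rule x a) {s v : ℕ} (hs : x s = v) :
    x (s + 1) = nb v ((a v + Nat.count (fun u => x u = v) s + 1) % dg v) := by
  subst hs; exact h s

theorem Rule.adj {x a : ℕ → ℕ} (h : Rule x a) (s : ℕ) : gr.Adj (x s) (x (s + 1)) := by
  rw [h s]; exact nb_adj (Nat.mod_lt _ (dg_pos _))

theorem Rule.shift {x a : ℕ → ℕ} (h : Rule x a) (T : ℕ) :
    Rule (fun s => x (T + s)) (fun v => a v + Nat.count (fun u => x u = v) T) := by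
  intro s
  have h1 := h.eq (s := T + s) rfl
  have h2 : Nat.count (fun u => x u = x (T + s)) (T + s)
      = Nat.count (fun u => x u = x (T + s)) T
        + Nat.count (fun u => x (T + u) = x (T + s)) s := by
    rw [Nat.count_add]
  show x (T + s + 1) = _
  rw [h1, h2]
  congr 2
  ring

/-- within a block where no vertex has been exited more often than its degree, no directed edge
is used twice -/
theorem Rule.inj {x a : ℕ → ℕ} (h : Rule x a) {t : ℕ}
    (ht : ∀ w, Nat.count (fun u => x u = w) t ≤ dg w) {s s' : ℕ} (hs : s < t) (hs' : s' < t)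
    (h1 : x s = x s') (h2 : x (s + 1) = x (s' + 1)) : s = s' := by
  wlog hlt : s < s' generalizing s s' with H
  · by_contra hne
    exact hne (H hs' hs h1.symm h2.symm (by omega)).symm
  exfalso
  set w := x s with hw
  have e1 := h.eq (s := s) hw.symm
  have e2 := h.eq (s := s') h1.symm
  rw [e1, e2] at h2
  have h3 := nb_inj (Nat.mod_lt _ (dg_pos _)) (Nat.mod_lt _ (dg_pos _)) h2
  have c1 : Nat.count (fun u => x u = w) (s + 1) ≤ Nat.count (fun u => x u = w) s' :=
    Nat.count_monotone _ hlt
  have c2 : Nat.count (fun u => x u = w) (s' + 1) ≤ Nat.count (fun u => x u = w) t :=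
    Nat.count_monotone _ hs'
  rw [Nat.count_succ, if_pos hw.symm] at c1
  rw [Nat.count_succ, if_pos h1.symm] at c2
  have c3 := ht w
  have h4 : (a w + Nat.count (fun u => x u = w) s + 1) ≡
      (a w + Nat.count (fun u => x u = w) s' + 1) [MOD dg w] := h3
  have h5 : (a w + Nat.count (fun u => x u = w) s + 1) ≤
      (a w + Nat.count (fun u => x u = w) s' + 1) := by omega
  have h6 := (Nat.modEq_iff_dvd' h5).1 h4
  have h7 : (a w + Nat.count (fun u => x u = w) s' + 1) -
      (a w + Nat.count (fun u => x u = w) s + 1) =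
      Nat.count (fun u => x u = w) s' - Nat.count (fun u => x u = w) s := by omega
  rw [h7] at h6
  have h8 := Nat.le_of_dvd (by omega) h6
  omega

/-- the neighbours as a finite set -/
def nbs (v : ℕ) : Finset ℕ := (Finset.range (dg v)).image (nb v)

theorem mem_nbs {v w : ℕ} : w ∈ nbs v ↔ gr.Adj v w := by
  unfold nbs
  rw [Finset.mem_image]
  constructor
  · rintro ⟨p, hp, rfl⟩
    exact nb_adj (Finset.mem_range.1 hp)
  · intro h
    exact ⟨ps v w, Finset.mem_range.2 (ps_lt h), nb_ps h⟩

theorem card_nbs (v : ℕ) : (nbs v).card = dg v := by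
  unfold nbs
  rw [Finset.card_image_of_injOn, Finset.card_range]
  intro p hp q hq h
  exact nb_inj (by simpa using hp) (by simpa using hq) h

theorem count_shift (x : ℕ → ℕ) (v t : ℕ) :
    Nat.count (fun u => x (u + 1) = v) t + (if x 0 = v then 1 else 0)
      = Nat.count (fun u => x u = v) (t + 1) := by
  induction t with
  | zero => simp [Nat.count_succ]
  | succ t ih =>
    rw [Nat.count_succ, Nat.count_succ (fun u => x u = v) (t + 1), ← ih]
    ring

/-- entries into `v` before time `t` -/
theorem entries_le {x a : ℕ → ℕ} (h : Rule x a) {t : ℕ}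
    (ht : ∀ w, Nat.count (fun u => x u = w) t ≤ dg w) (v : ℕ) :
    Nat.count (fun u => x (u + 1) = v) t ≤ dg v := by
  rw [Nat.count_eq_card_filter_range, ← card_nbs v]
  refine Finset.card_le_card_of_injOn x ?_ ?_
  · intro s hs
    have hs' := (Finset.mem_filter.1 hs).2
    rw [Finset.mem_coe, mem_nbs, ← hs']
    exact (h.adj s).symm
  · intro s hs s' hs' hss
    have h1 := Finset.mem_filter.1 hs
    have h2 := Finset.mem_filter.1 hs'
    exact h.inj ht (Finset.mem_range.1 h1.1) (Finset.mem_range.1 h2.1) hss (h1.2.trans h2.2.symm)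

theorem entries_full {x a : ℕ → ℕ} (h : Rule x a) {t : ℕ}
    (ht : ∀ w, Nat.count (fun u => x u = w) t ≤ dg w) (v : ℕ)
    (hv : dg v ≤ Nat.count (fun u => x (u + 1) = v) t) {w : ℕ} (hw : gr.Adj w v) :
    ∃ s < t, x s = w ∧ x (s + 1) = v := by
  rw [Nat.count_eq_card_filter_range, ← card_nbs v] at hv
  have h1 : ∀ s ∈ Finset.filter (fun u => x (u + 1) = v) (Finset.range t), x s ∈ nbs v := by
    intro s hs
    have hs' := (Finset.mem_filter.1 hs).2
    rw [mem_nbs, ← hs']
    exact (h.adj s).symm
  have h2 := Finset.surj_on_of_inj_on_of_card_le (s := Finset.filter (fun u => x (u + 1) = v)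
    (Finset.range t)) (t := nbs v) (fun s _ => x s) h1 (by
      intro s s' hs hs' hss
      have h1 := Finset.mem_filter.1 hs
      have h2 := Finset.mem_filter.1 hs'
      exact h.inj ht (Finset.mem_range.1 h1.1) (Finset.mem_range.1 h2.1) hss
        (h1.2.trans h2.2.symm)) hv w (mem_nbs.2 hw.symm)
  obtain ⟨s, hs, hs'⟩ := h2
  have h3 := Finset.mem_filter.1 hs
  exact ⟨s, Finset.mem_range.1 h3.1, hs'.symm, h3.2⟩

/-- exits in a full excursion -/
theorem exits_le {x a : ℕ → ℕ} (h : Rule x a) {T : ℕ} (h0 : x 0 = 0)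
    (hT : Nat.count (fun u => x u = 0) T ≤ 2) :
    ∀ t ≤ T, ∀ w, Nat.count (fun u => x u = w) t ≤ dg w := by
  intro t
  induction t with
  | zero => intro _ w; simp
  | succ t ih =>
    intro htT w
    have ih' := ih (by omega)
    by_cases hw : x t = w
    · by_cases hw0 : w = 0
      · subst hw0
        have h1 : Nat.count (fun u => x u = 0) (t + 1) ≤ Nat.count (fun u => x u = 0) T :=
          Nat.count_monotone _ htT
        have h2 : dg 0 = 2 := by decide
        omega
      · have h1 := count_shift x w t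
        rw [if_neg (by rw [h0]; exact fun h => hw0 h.symm)] at h1
        rw [← h1]
        exact entries_le h ih' w
    · rw [Nat.count_succ, if_neg hw]
      exact ih' w

/-- counting exits downward from a vertex of positive level -/
theorem down_count {x a : ℕ → ℕ} (h : Rule x a) {v : ℕ} (hv : lev v ≠ 0) (t : ℕ) :
    Nat.count (fun u => x u = v ∧ lev (x (u + 1)) + 1 = lev v) t + (a v + 5) / 5
      = (a v + Nat.count (fun u => x u = v) t + 5) / 5 := by
  induction t with
  | zero => simp
  | succ t ih =>
    rw [Nat.count_succ, Nat.count_succ]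
    by_cases hx : x t = v
    · have e := h.eq hx
      set c := Nat.count (fun u => x u = v) t with hc
      have hd : 5 ∣ dg v := by
        unfold dg; rw [if_neg hv]; exact Dvd.intro _ rfl
      have hm : (a v + c + 1) % dg v % 5 = (a v + c + 1) % 5 := Nat.mod_mod_of_dvd _ hd
      have hlt : (a v + c + 1) % dg v < dg v := Nat.mod_lt _ (dg_pos _)
      rw [if_pos hx]
      by_cases h5 : (a v + c + 1) % 5 = 0
      · have h6 := nb_lev_down hv hlt (by rw [hm]; exact h5)
        rw [← e] at h6
        rw [if_pos ⟨hx, h6⟩]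
        omega
      · have h6 := nb_lev_up hv hlt (by rw [hm]; exact h5)
        rw [← e] at h6
        rw [if_neg (fun hh => by omega)]
        omega
    · rw [if_neg hx, if_neg (fun hh => hx hh.1)]
      omega

theorem up_down_count {x a : ℕ → ℕ} (h : Rule x a) (v : ℕ) (t : ℕ) :
    Nat.count (fun u => x u = v ∧ lev (x (u + 1)) + 1 = lev v) t
     + Nat.count (fun u => x u = v ∧ lev (x (u + 1)) = lev v + 1) t
      = Nat.count (fun u => x u = v) t := by
  induction t with
  | zero => simp
  | succ t ih =>
    rw [Nat.count_succ, Nat.count_succ, Nat.count_succ]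
    by_cases hx : x t = v
    · have e := h.adj t
      rw [adj_iff, hx] at e
      rw [if_pos hx]
      rcases e with e | e
      · rw [if_neg (fun hh => by omega), if_pos ⟨hx, e.symm⟩]; omega
      · rw [if_pos ⟨hx, e⟩, if_neg (fun hh => by omega)]; omega
    · rw [if_neg hx, if_neg (fun hh => hx hh.1), if_neg (fun hh => hx hh.1)]
      omega

/-- the vertices of a level -/
def level (n : ℕ) : Finset ℕ := Finset.Ico (2 ^ n - 1) (2 ^ (n + 1) - 1)

theorem mem_level {v n : ℕ} : v ∈ level n ↔ lev v = n := by
  unfold level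
  rw [lev_eq_iff, Finset.mem_Ico]
  have h1 : 1 ≤ 2 ^ n := Nat.one_le_two_pow
  have h2 : 1 ≤ 2 ^ (n + 1) := Nat.one_le_two_pow
  omega

theorem card_level (n : ℕ) : (level n).card = 2 ^ n := by
  unfold level
  rw [Nat.card_Ico, pow_succ]
  have h1 : 1 ≤ 2 ^ n := Nat.one_le_two_pow
  omega

/-- number of downward moves out of level `n` before time `t` -/
def dn (x : ℕ → ℕ) (n t : ℕ) : ℕ := Nat.count (fun u => lev (x u) = n ∧ lev (x (u + 1)) + 1 = n) t

/-- number of upward moves out of level `n` before time `t` -/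
def up (x : ℕ → ℕ) (n t : ℕ) : ℕ := Nat.count (fun u => lev (x u) = n ∧ lev (x (u + 1)) = n + 1) t

theorem dn_eq_sum (x : ℕ → ℕ) (n t : ℕ) : dn x n t =
    ∑ v ∈ level n, Nat.count (fun u => x u = v ∧ lev (x (u + 1)) + 1 = lev v) t := by
  unfold dn
  rw [Nat.count_eq_card_filter_range,
    Finset.card_eq_sum_card_fiberwise (f := x) (t := level n)]
  · refine Finset.sum_congr rfl fun v hv => ?_
    rw [Nat.count_eq_card_filter_range, Finset.filter_filter]
    congr 1
    refine Finset.filter_congr fun u _ => ?_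
    rw [mem_level] at hv
    constructor
    · rintro ⟨⟨h1, h2⟩, h3⟩
      exact ⟨h3, by omega⟩
    · rintro ⟨h1, h2⟩
      subst h1
      exact ⟨⟨hv, by omega⟩, rfl⟩
  · intro u hu
    have := Finset.mem_filter.1 hu
    rw [Finset.mem_coe, mem_level]
    exact this.2.1

theorem up_eq_sum (x : ℕ → ℕ) (n t : ℕ) : up x n t =
    ∑ v ∈ level n, Nat.count (fun u => x u = v ∧ lev (x (u + 1)) = lev v + 1) t := by
  unfold up
  rw [Nat.count_eq_card_filter_range,
    Finset.card_eq_sum_card_fiberwise (f := x) (t := level n)]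
  · refine Finset.sum_congr rfl fun v hv => ?_
    rw [Nat.count_eq_card_filter_range, Finset.filter_filter]
    congr 1
    refine Finset.filter_congr fun u _ => ?_
    rw [mem_level] at hv
    constructor
    · rintro ⟨⟨h1, h2⟩, h3⟩
      exact ⟨h3, by omega⟩
    · rintro ⟨h1, h2⟩
      subst h1
      exact ⟨⟨hv, by omega⟩, rfl⟩
  · intro u hu
    have := Finset.mem_filter.1 hu
    rw [Finset.mem_coe, mem_level]
    exact this.2.1

theorem flow {x a : ℕ → ℕ} (h : Rule x a) {n : ℕ} (hn : n ≠ 0) (t : ℕ) :
    4 * dn x n t ≤ up x n t + 4 * 2 ^ n := by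
  rw [dn_eq_sum, up_eq_sum, ← card_level n, Finset.mul_sum, mul_comm 4 (level n).card,
    ← smul_eq_mul (level n).card 4, ← Finset.sum_const, ← Finset.sum_add_distrib]
  refine Finset.sum_le_sum fun v hv => ?_
  rw [mem_level] at hv
  have h1 := down_count h (v := v) (by omega) t
  have h2 := up_down_count h v t
  omega

theorem crossing (x a : ℕ → ℕ) (h : Rule x a) (h0 : x 0 = 0) (n t : ℕ) :
    up x n t = dn x (n + 1) t + (if n + 1 ≤ lev (x t) then 1 else 0) := by
  induction t with
  | zero =>
    have : lev 0 = 0 := by decide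
    simp [up, dn, h0, this]
  | succ t ih =>
    unfold up dn at *
    rw [Nat.count_succ, Nat.count_succ, ih]
    have e := h.adj t
    rw [adj_iff] at e
    split_ifs <;> omega

theorem dn_bound {x a : ℕ → ℕ} (h : Rule x a) (h0 : x 0 = 0) {T : ℕ} (hT : x T = 0)
    (n : ℕ) : dn x (n + 1) T ≤ 2 * 2 ^ (n + 1) := by
  -- levels are bounded
  obtain ⟨N, hN⟩ : ∃ N, ∀ u < T, lev (x u) < N := by
    refine ⟨(Finset.range T).sup (fun u => lev (x u)) + 1, fun u hu => ?_⟩
    exact Nat.lt_succ_of_le (Finset.le_sup (f := fun u => lev (x u)) (Finset.mem_range.2 hu))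
  have key : ∀ k n, N ≤ n + 1 + k → dn x (n + 1) T ≤ 2 * 2 ^ (n + 1) := by
    intro k
    induction k with
    | zero =>
      intro n hn
      have : dn x (n + 1) T = 0 := by
        unfold dn
        rw [Nat.count_eq_card_filter_range, Finset.card_eq_zero, Finset.filter_eq_empty_iff]
        intro u hu hh
        have := hN u (Finset.mem_range.1 hu)
        omega
      omega
    | succ k ih =>
      intro n hn
      have h1 := ih (n + 1) (by omega)
      have h2 := flow h (n := n + 1) (by omega) T
      have h3 := crossing x a h h0 (n + 1) T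
      have h4 : lev 0 = 0 := by decide
      rw [hT, h4, if_neg (by omega)] at h3
      rw [pow_succ] at h1
      omega
  exact key N n (by omega)

/-- A finite full excursion from the root cannot exhaust the vertices of level 2. -/
theorem no_excursion {x a : ℕ → ℕ} (h : Rule x a) (h0 : x 0 = 0) {T : ℕ} (hT : x T = 0)
    (hfull : ∀ v, lev v = 2 → dg v ≤ Nat.count (fun u => x u = v) T) : False := by
  have h1 := dn_bound h h0 hT 2
  have h2 := crossing x a h h0 2 T
  have h4 : lev 0 = 0 := by decide
  rw [hT, h4, if_neg (by omega)] at h2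
  have h5 : 32 ≤ up x 2 T := by
    rw [up_eq_sum]
    have : ∑ v ∈ level 2, 8 ≤
        ∑ v ∈ level 2, Nat.count (fun u => x u = v ∧ lev (x (u + 1)) = lev v + 1) T := by
      refine Finset.sum_le_sum fun v hv => ?_
      rw [mem_level] at hv
      have e1 := down_count h (v := v) (by omega) T
      have e2 := up_down_count h v T
      have e3 := hfull v hv
      have e4 : dg v = 10 := by unfold dg; rw [hv]; norm_num
      omega
    rw [Finset.sum_const, card_level] at this
    simpa using this
  omega

/-- At a time when the particle is at the root, every vertex exited before is exited at least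
`dg` many times during the next full excursion (two returns to the root). -/
theorem full_of_visited {x a : ℕ → ℕ} (h : Rule x a) {T0 T : ℕ} (h0 : x T0 = 0)
    (hT : x (T0 + T) = 0) (h2 : Nat.count (fun u => x (T0 + u) = 0) T = 2) :
    ∀ m v, m < T0 → x (T0 - 1 - m) = v → (∀ s, T0 - 1 - m < s → s < T0 → x s ≠ v) →
      dg v ≤ Nat.count (fun u => x (T0 + u) = v) T := by
  have hR : Rule (fun s => x (T0 + s)) (fun v => a v + Nat.count (fun u => x u = v) T0) :=
    h.shift T0
  have hle : ∀ w, Nat.count (fun u => x (T0 + u) = w) T ≤ dg w :=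
    fun w => exits_le hR (by simpa using h0) (le_of_eq h2) T le_rfl w
  intro m
  induction m using Nat.strong_induction_on with
  | _ m ih =>
    intro v hm hv hlast
    have hidx : T0 - 1 - m + 1 = T0 - m := by omega
    have e2 := h.eq hv
    have hadj : gr.Adj v (x (T0 - m)) := by
      have := h.adj (T0 - 1 - m)
      rwa [hv, hidx] at this
    rw [hidx] at e2
    set w := x (T0 - m) with hw
    have hwfull : dg w ≤ Nat.count (fun u => x (T0 + u) = w) T := by
      by_cases hm0 : m = 0
      · have hw0 : w = 0 := by rw [hw, hm0]; simpa using h0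
        rw [hw0, h2]; decide
      · set s := Nat.findGreatest (fun s => x s = w) (T0 - 1) with hs
        have h1 : T0 - m ≤ s := Nat.le_findGreatest (by omega) hw.symm
        have h3 : s ≤ T0 - 1 := Nat.findGreatest_le _
        have h4 : x s = w := Nat.findGreatest_spec (P := fun s => x s = w) (m := T0 - m)
          (by omega) hw.symm
        have h5 : T0 - 1 - (T0 - 1 - s) = s := by omega
        refine ih (T0 - 1 - s) (by omega) w (by omega) (by rw [h5]; exact h4) ?_
        rw [h5]
        intro s' hs1 hs2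
        exact Nat.findGreatest_is_greatest (P := fun s => x s = w) hs1 (by omega)
    have hent : dg w ≤ Nat.count (fun u => x (T0 + (u + 1)) = w) T := by
      have h1 := count_shift (fun s => x (T0 + s)) w T
      rw [Nat.count_succ] at h1
      simp only [Nat.add_zero, h0, hT] at h1
      omega
    obtain ⟨s, hsT, hs1, hs2⟩ := entries_full hR hle w hent hadj
    have e1 := hR.eq hs1
    rw [hs2] at e1
    have hcount : Nat.count (fun u => x u = v) T0
        = Nat.count (fun u => x u = v) (T0 - 1 - m) + 1 := by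
      have h1 : T0 = (T0 - 1 - m + 1) + m := by omega
      conv_lhs => rw [h1]
      rw [Nat.count_add, Nat.count_succ, if_pos hv]
      have h3 : Nat.count (fun k => x (T0 - 1 - m + 1 + k) = v) m = 0 := by
        rw [Nat.count_eq_card_filter_range, Finset.card_eq_zero, Finset.filter_eq_empty_iff]
        intro u hu
        rw [Finset.mem_range] at hu
        exact hlast _ (by omega) (by omega)
      rw [h3]
    rw [hcount] at e1
    rw [e2] at e1
    have h3 := nb_inj (Nat.mod_lt _ (dg_pos _)) (Nat.mod_lt _ (dg_pos _)) e1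
    set c1 := Nat.count (fun u => x u = v) (T0 - 1 - m) with hc1
    set c2 := Nat.count (fun u => x (T0 + u) = v) s with hc2
    have h4 : (a v + c1 + 1) ≡ (a v + (c1 + 1) + c2 + 1) [MOD dg v] := h3
    have h6 := (Nat.modEq_iff_dvd' (by omega)).1 h4
    have h7 : (a v + (c1 + 1) + c2 + 1) - (a v + c1 + 1) = c2 + 1 := by omega
    rw [h7] at h6
    have h8 := Nat.le_of_dvd (by omega) h6
    have h9 : Nat.count (fun u => x (T0 + u) = v) (s + 1)
        ≤ Nat.count (fun u => x (T0 + u) = v) T := Nat.count_monotone _ hsT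
    rw [Nat.count_succ, if_pos hs1] at h9
    omega

/-- If a vertex is visited infinitely often, then so is each of its neighbours. -/
theorem inf_nb {x a : ℕ → ℕ} (h : Rule x a) {v w : ℕ} (hv : {t | x t = v}.Infinite)
    (hw : gr.Adj v w) : {t | x t = w}.Infinite := by
  apply Set.infinite_of_forall_exists_gt
  intro B
  have hd := dg_pos v
  have h1 : a v + 1 + B ≤ dg v * (a v + 1 + B) := Nat.le_mul_of_pos_left _ hd
  set k := dg v * (a v + 1 + B) + ps v w - (a v + 1) with hk
  have h2 : a v + k + 1 = ps v w + dg v * (a v + 1 + B) := by omega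
  have ht : x (Nat.nth (fun u => x u = v) k) = v := Nat.nth_mem_of_infinite hv k
  have hc : Nat.count (fun u => x u = v) (Nat.nth (fun u => x u = v) k) = k :=
    Nat.count_nth_of_infinite hv k
  have e := h.eq ht
  rw [hc, h2, Nat.add_mul_mod_self_left, Nat.mod_eq_of_lt (ps_lt hw), nb_ps hw] at e
  refine ⟨_, e, ?_⟩
  have h3 : k ≤ Nat.nth (fun u => x u = v) k := (Nat.nth_strictMono hv).le_apply
  omega

theorem inf_zero {x a : ℕ → ℕ} (h : Rule x a) :
    ∀ n v, lev v = n → {t | x t = v}.Infinite → {t | x t = 0}.Infinite := by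
  intro n
  induction n with
  | zero =>
    intro v hv hi
    rwa [(lev_zero_iff v).1 hv] at hi
  | succ n ih =>
    intro v hv hi
    have h1 : lev (2 ^ n - 1) = n := by
      rw [lev_eq_iff, pow_succ]
      have : 1 ≤ 2 ^ n := Nat.one_le_two_pow
      omega
    exact ih _ h1 (inf_nb h hi ((adj_iff _ _).2 (Or.inr (by omega))))

theorem inf_all {x a : ℕ → ℕ} (h : Rule x a) (h0 : {t | x t = 0}.Infinite) :
    ∀ n v, lev v = n → {t | x t = v}.Infinite := by
  intro n
  induction n with
  | zero =>
    intro v hv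
    rwa [(lev_zero_iff v).1 hv]
  | succ n ih =>
    intro v hv
    have h1 : lev (2 ^ n - 1) = n := by
      rw [lev_eq_iff, pow_succ]
      have : 1 ≤ 2 ^ n := Nat.one_le_two_pow
      omega
    exact inf_nb h (ih _ h1) ((adj_iff _ _).2 (Or.inl (by omega)))

/-- Every sequence obeying the rotor rule visits every vertex finitely often. -/
theorem transient_core {x a : ℕ → ℕ} (h : Rule x a) (v : ℕ) : {t | x t = v}.Finite := by
  by_contra hv
  have h0 : {t | x t = 0}.Infinite := inf_zero h _ v rfl hv
  have hall : ∀ w, {t | x t = w}.Infinite := fun w => inf_all h h0 _ w rfl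
  -- a time before which all vertices of level 2 have been exited
  have hB : ∀ n, ∃ B, ∀ w < n, ∃ s < B, x s = w := by
    intro n
    induction n with
    | zero => exact ⟨0, fun w hw => by omega⟩
    | succ n ih =>
      obtain ⟨B, hB⟩ := ih
      obtain ⟨s, hs⟩ := (hall n).nonempty
      refine ⟨max B (s + 1), fun w hw => ?_⟩
      by_cases hwn : w = n
      · subst hwn; exact ⟨s, by omega, hs⟩
      · obtain ⟨s', hs', hs''⟩ := hB w (by omega)
        exact ⟨s', by omega, hs''⟩
  obtain ⟨B, hB⟩ := hB 7
  obtain ⟨T0, hT0, hBT0⟩ := h0.exists_gt B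
  have hT0' : x T0 = 0 := hT0
  have hR : Rule (fun s => x (T0 + s)) (fun v => a v + Nat.count (fun u => x u = v) T0) :=
    h.shift T0
  have hinf : {u | x (T0 + u) = 0}.Infinite := by
    apply Set.infinite_of_forall_exists_gt
    intro B'
    obtain ⟨t, ht, htB⟩ := h0.exists_gt (T0 + B')
    refine ⟨t - T0, ?_, by omega⟩
    have : T0 + (t - T0) = t := by omega
    show x (T0 + (t - T0)) = 0
    rw [this]; exact ht
  set T := Nat.nth (fun u => x (T0 + u) = 0) 2 with hT
  have hT1 : x (T0 + T) = 0 := Nat.nth_mem_of_infinite hinf 2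
  have hT2 : Nat.count (fun u => x (T0 + u) = 0) T = 2 := Nat.count_nth_of_infinite hinf 2
  refine no_excursion hR (by simpa using hT0') (T := T) hT1 ?_
  intro w hw
  have hw7 : w < 7 := by
    have := (lev_eq_iff w 2).1 hw
    omega
  obtain ⟨s0, hs0, hs0'⟩ := hB w hw7
  set s := Nat.findGreatest (fun s => x s = w) (T0 - 1) with hs
  have h1 : s0 ≤ s := Nat.le_findGreatest (by omega) hs0'
  have h3 : s ≤ T0 - 1 := Nat.findGreatest_le _
  have h4 : x s = w := Nat.findGreatest_spec (P := fun s => x s = w) (m := s0)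
    (by omega) hs0'
  have h5 : T0 - 1 - (T0 - 1 - s) = s := by omega
  refine full_of_visited h hT0' hT1 hT2 (T0 - 1 - s) w (by omega) (by rw [h5]; exact h4) ?_
  rw [h5]
  intro s' hs1 hs2
  exact Nat.findGreatest_is_greatest (P := fun s => x s = w) hs1 (by omega)

/-! ### The mechanism -/

/-- the `p`-th neighbour is followed by the `(p+1)`-st -/
def nextPerm (v : ℕ) : Equiv.Perm (gr.neighborSet v) where
  toFun := fun w => ⟨nb v ((ps v w + 1) % dg v), nb_adj (Nat.mod_lt _ (dg_pos _))⟩
  invFun := fun w => ⟨nb v ((ps v w + (dg v - 1)) % dg v), nb_adj (Nat.mod_lt _ (dg_pos _))⟩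
  left_inv := by
    rintro ⟨w, hw⟩
    have hw' : gr.Adj v w := hw
    apply Subtype.ext
    show nb v ((ps v (nb v ((ps v w + 1) % dg v)) + (dg v - 1)) % dg v) = w
    rw [ps_nb (Nat.mod_lt _ (dg_pos _)), Nat.mod_add_mod]
    have h1 := dg_pos v
    have h2 : ps v w + 1 + (dg v - 1) = ps v w + dg v := by omega
    rw [h2, Nat.add_mod_right, Nat.mod_eq_of_lt (ps_lt hw'), nb_ps hw']
  right_inv := by
    rintro ⟨w, hw⟩
    have hw' : gr.Adj v w := hw
    apply Subtype.ext
    show nb v ((ps v (nb v ((ps v w + (dg v - 1)) % dg v)) + 1) % dg v) = w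
    rw [ps_nb (Nat.mod_lt _ (dg_pos _)), Nat.mod_add_mod]
    have h1 := dg_pos v
    have h2 : ps v w + (dg v - 1) + 1 = ps v w + dg v := by omega
    rw [h2, Nat.add_mod_right, Nat.mod_eq_of_lt (ps_lt hw'), nb_ps hw']

theorem nextPerm_iterate (v : ℕ) (w : gr.neighborSet v) (k : ℕ) :
    (((nextPerm v)^[k] w : gr.neighborSet v) : ℕ) = nb v ((ps v w + k) % dg v) := by
  induction k with
  | zero =>
    have hw' : gr.Adj v w := w.2
    simp only [Function.iterate_zero, id_eq, Nat.add_zero]
    rw [Nat.mod_eq_of_lt (ps_lt hw'), nb_ps hw']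
  | succ k ih =>
    rw [Function.iterate_succ_apply']
    show nb v ((ps v ((nextPerm v)^[k] w : gr.neighborSet v) + 1) % dg v) = _
    rw [ih, ps_nb (Nat.mod_lt _ (dg_pos _)), Nat.mod_add_mod, Nat.add_assoc]

/-- the mechanism -/
def mech : RotorMechanism gr where
  next := nextPerm
  cyclic v := by
    intro a b
    have ha : gr.Adj v a := a.2
    have hb : gr.Adj v b := b.2
    have h1 := ps_lt ha
    have h2 := ps_lt hb
    refine ⟨ps v b + dg v - ps v a, ?_⟩
    apply Subtype.ext
    rw [nextPerm_iterate]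
    have h3 : ps v a + (ps v b + dg v - ps v a) = ps v b + dg v := by omega
    rw [h3, Nat.add_mod_right, Nat.mod_eq_of_lt h2, nb_ps hb]

theorem rotor_state (x0 : ℕ) (r0 : RotorConfig gr) (t : ℕ) (v : ℕ) :
    ((step mech)^[t] (x0, r0)).2 v
      = (nextPerm v)^[Nat.count (fun u => position mech x0 r0 u = v) t] (r0 v) := by
  induction t with
  | zero => simp
  | succ t ih =>
    rw [Function.iterate_succ_apply', Nat.count_succ]
    set s := (step mech)^[t] (x0, r0) with hs
    have hp : position mech x0 r0 t = s.1 := rfl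
    by_cases hv : s.1 = v
    · subst hv
      rw [if_pos hp, Function.iterate_succ_apply', ← ih]
      simp [step, mech]
    · rw [if_neg (by rw [hp]; exact hv), Nat.add_zero, ← ih]
      simp only [step]
      unfold Function.update
      rw [dif_neg (fun h => hv h.symm)]

theorem rule_position (x0 : ℕ) (r0 : RotorConfig gr) :
    Rule (position mech x0 r0) (fun v => ps v (r0 v)) := by
  intro t
  have h1 : position mech x0 r0 (t + 1)
      = ((nextPerm (position mech x0 r0 t) (((step mech)^[t] (x0, r0)).2
          (position mech x0 r0 t)) : gr.neighborSet _) : ℕ) := by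
    unfold position
    rw [Function.iterate_succ_apply']
    rfl
  rw [h1, rotor_state, ← Function.iterate_succ_apply' (nextPerm (position mech x0 r0 t)),
    nextPerm_iterate, Nat.add_assoc]

theorem gr_connected : gr.Connected := by
  have key : ∀ n v, lev v = n → gr.Reachable v 0 := by
    intro n
    induction n with
    | zero =>
      intro v hv
      rw [(lev_zero_iff v).1 hv]
    | succ n ih =>
      intro v hv
      have h1 : lev (2 ^ n - 1) = n := by
        rw [lev_eq_iff, pow_succ]
        have : 1 ≤ 2 ^ n := Nat.one_le_two_pow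
        omega
      have h2 : gr.Adj v (2 ^ n - 1) := (adj_iff _ _).2 (Or.inr (by omega))
      exact h2.reachable.trans (ih _ h1)
  have : Nonempty ℕ := ⟨0⟩
  exact ⟨fun u v => (key _ u rfl).trans (key _ v rfl).symm⟩

/-- There are an infinite, connected, simple, locally finite graph `G` and a rotor mechanism on
`G` for which every initial rotor configuration is transient (from every starting vertex). -/
theorem result :
    ∃ (V : Type) (G : SimpleGraph V), Infinite V ∧ G.Connected ∧
      (∀ v : V, (G.neighborSet v).Finite) ∧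
      ∃ M : RotorMechanism G, ∀ (r0 : RotorConfig G) (x0 : V), IsTransient M x0 r0 := by
  refine ⟨ℕ, gr, inferInstance, gr_connected, fun v => ?_, mech, fun r0 x0 v => ?_⟩
  · have : gr.neighborSet v = (nbs v : Set ℕ) := by
      ext w
      rw [Finset.mem_coe, mem_nbs]
      rfl
    rw [this]
    exact Finset.finite_toSet _
  · exact transient_core (rule_position x0 r0) v

end Pool.Agent.Results.MP_c5a801_co.AllTransient
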